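import Pool.Agent.W467.EM.Loc

/-!
Symbolic powers in localizations of polynomial rings.
-/

set_option autoImplicit false

namespace Pool.Agent.W467.EM

open MvPolynomial IsLocalRing

section hyper

variable {R : Type*} [CommRing R] [IsLocalRing R] [IsNoetherianRing R]

/-- a hyperplane of `J / m J` which does not contain a given element -/
theorem exists_hyper (J : Ideal R) (F : R) (hF : F ∉ maximalIdeal R * J) :
    ∃ k : Ideal R, F ∉ k ∧ maximalIdeal R * J ≤ k ∧ ∀ G ∈ J, ∃ a, G - a * F ∈ k := by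
  obtain ⟨k, ⟨hk1, hk2⟩, hk3⟩ := set_has_maximal_iff_noetherian.2
    (inferInstance : IsNoetherian R R) {k : Ideal R | F ∉ k ∧ maximalIdeal R * J ≤ k}
    ⟨_, hF, le_rfl⟩
  refine ⟨k, hk1, hk2, fun G hG => ?_⟩
  by_cases hGk : G ∈ k
  · exact ⟨0, by simpa using hGk⟩
  have h1 : k < k ⊔ Ideal.span {G} := by
    rw [left_lt_sup, Ideal.span_singleton_le_iff_mem]
    exact hGk
  have h2 : F ∈ k ⊔ Ideal.span {G} := by
    by_contra h2
    exact hk3 _ ⟨h2, hk2.trans le_sup_left⟩ h1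
  obtain ⟨κ, hκ, y, hy, hκy⟩ := Submodule.mem_sup.1 h2
  obtain ⟨a, rfl⟩ := Ideal.mem_span_singleton'.1 hy
  by_cases ha : a ∈ maximalIdeal R
  · exact absurd (by rw [← hκy]; exact k.add_mem hκ (hk2 (Ideal.mul_mem_mul ha hG))) hk1
  · rw [mem_maximalIdeal, mem_nonunits_iff, not_not] at ha
    obtain ⟨b, hb⟩ := ha.exists_left_inv
    refine ⟨b, ?_⟩
    have h3 : G - b * F = -(b * κ) := by
      rw [← hκy]
      linear_combination (-G) * hb
    rw [h3]
    exact k.neg_mem (Ideal.mul_mem_left _ _ hκ)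

end hyper

/-- minimal primes of radical ideals -/
theorem exists_mul_mem {R : Type*} [CommRing R] {I Q : Ideal R} (hI : I.IsRadical)
    (hQ : Q ∈ I.minimalPrimes) {x : R} (hx : x ∈ Q) : ∃ s, s ∉ Q ∧ s * x ∈ I := by
  obtain ⟨⟨hp₁, hp₂⟩, hp₃⟩ := hQ
  have hQ' : Q.map (algebraMap R (Localization.AtPrime Q)) ≤
      (I.map (algebraMap R (Localization.AtPrime Q))).radical := by
    rw [Ideal.radical_eq_sInf, le_sInf_iff]
    rintro q ⟨hq', hq⟩
    obtain ⟨h₁, h₂⟩ := ((IsLocalization.AtPrime.orderIsoOfPrime _ Q) ⟨q, hq⟩).2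
    rw [Ideal.map_le_iff_le_comap] at hq' ⊢
    exact hp₃ ⟨h₁, hq'⟩ h₂
  obtain ⟨n, hn⟩ := hQ' (Ideal.mem_map_of_mem _ hx)
  rw [← map_pow, IsLocalization.algebraMap_mem_map_algebraMap_iff Q.primeCompl] at hn
  obtain ⟨t, ht, htx⟩ := hn
  refine ⟨t, ht, hI ⟨n + 1, ?_⟩⟩
  have : (t * x) ^ (n + 1) = (t ^ n * x) * (t * x ^ n) := by ring
  rw [this]
  exact Ideal.mul_mem_left _ _ htx

theorem main {K : Type*} [Field K] {n : ℕ} (P : Ideal (MvPolynomial (Fin n) K)) [hP : P.IsPrime]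
    (I : Ideal (Localization.AtPrime P)) (hI : I.IsRadical) (hI' : I ≠ ⊤) {m h : ℕ} (hm : 1 ≤ m)
    (hh : 1 ≤ h) (hht : ∀ Q ∈ I.minimalPrimes, Q.height ≤ (h + 1 : ℕ)) :
    symb I (m + h) ≤ maximalIdeal (Localization.AtPrime P) * symb I m := by
  classical
  set S := MvPolynomial (Fin n) K with hS
  set R := Localization.AtPrime P with hR
  set φ := algebraMap S R with hφ
  intro F' hF'
  by_contra hF'J
  have hregS : IsRegularRing S := inferInstance
  -- replacing by an element of `S`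
  obtain ⟨F, hFs, hFJ⟩ : ∃ F : S, φ F ∈ symb I (m + h) ∧ φ F ∉ maximalIdeal R * symb I m := by
    obtain ⟨⟨F, t⟩, hFt⟩ := IsLocalization.surj P.primeCompl F'
    have ht : IsUnit (φ t) := IsLocalization.map_units _ t
    refine ⟨F, ?_, ?_⟩
    · rw [← hFt]
      exact Ideal.mul_mem_right _ _ hF'
    · rw [← hFt, Ideal.mul_unit_mem_iff_mem _ ht]
      exact hF'J
  obtain ⟨k', hk1, hk2, hk3⟩ := exists_hyper (symb I m) (φ F) hFJ
  set J : Ideal S := (symb I m).comap φ with hJ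
  set k : Ideal S := k'.comap φ with hk
  have hnoeth : ∀ I : Ideal S, I.FG := (isNoetherianRing_iff_ideal_fg S).1 inferInstance
  have hmin : I.minimalPrimes.Nonempty := Set.nonempty_coe_sort.1 (Ideal.nonempty_minimalPrimes hI')
  have hlemax : ∀ Q : Ideal R, Q.IsPrime → Q ≤ maximalIdeal R := fun Q hQ =>
    le_maximalIdeal hQ.ne_top
  have hJP : J ≤ P := by
    intro x hx
    obtain ⟨Q, hQ⟩ := hmin
    obtain ⟨s, hs, hsx⟩ := hx Q hQ
    have h1 : s * φ x ∈ Q := hQ.1.2 (Ideal.pow_le_self (by omega) hsx)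
    have h2 : φ x ∈ Q := (hQ.1.1.mem_or_mem h1).resolve_left hs
    exact (IsLocalization.AtPrime.to_map_mem_maximal_iff R P x).1 (hlemax Q hQ.1.1 h2)
  have hkF : ∀ x, F * x ∈ k → x ∈ P := by
    intro x hx
    by_contra hxP
    have h1 : IsUnit (φ x) := IsLocalization.map_units R (⟨x, hxP⟩ : P.primeCompl)
    have h2 : φ F * φ x ∈ k' := by rw [← map_mul]; exact hx
    rw [Ideal.mul_unit_mem_iff_mem _ h1] at h2
    exact hk1 h2
  obtain ⟨v, hv, hvJ⟩ : ∃ v, v ∉ P ∧ ∀ G ∈ J, v * G ∈ k ⊔ Ideal.span {F} := by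
    refine common (hnoeth J) P _ fun G hG => ?_
    obtain ⟨a, ha⟩ := hk3 (φ G) hG
    obtain ⟨⟨a', t⟩, hat⟩ := IsLocalization.surj P.primeCompl a
    refine ⟨t, t.2, ?_⟩
    have h1 : (t : S) * G - a' * F ∈ k := by
      change φ ((t : S) * G - a' * F) ∈ k'
      have h2 : φ ((t : S) * G - a' * F) = φ t * (φ G - a * φ F) := by
        rw [map_sub, map_mul, map_mul]
        have h3 : a * φ t = φ a' := hat
        rw [← h3]
        ring
      rw [h2]
      exact Ideal.mul_mem_left _ _ ha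
    have h4 : (t : S) * G = ((t : S) * G - a' * F) + a' * F := by ring
    rw [h4]
    exact Submodule.add_mem_sup h1 (Ideal.mul_mem_left _ _ (Ideal.mem_span_singleton_self _))
  -- the minimal primes
  set I₀ : Ideal S := I.comap φ with hI₀
  have hfinmin : I.minimalPrimes.Finite := Ideal.finite_minimalPrimes_of_isNoetherianRing R I
  have hfinι : Finite I.minimalPrimes := hfinmin
  have hQp : ∀ Q : I.minimalPrimes, ((Q : Ideal R).comap φ).IsPrime := fun Q =>
    Ideal.comap_isPrime _ _ (H := Q.2.1.1)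
  have hQP : ∀ Q : I.minimalPrimes, ((Q : Ideal R).comap φ) ≤ P := fun Q x hx =>
    (IsLocalization.AtPrime.to_map_mem_maximal_iff R P x).1 (hlemax Q Q.2.1.1 hx)
  -- from `R` to `S`
  have hRS : ∀ (Q : I.minimalPrimes) (c : Ideal S) (x : S),
      (∃ s : R, s ∉ (Q : Ideal R) ∧ s * φ x ∈ c.map φ) →
        ∃ a, a ∉ (Q : Ideal R).comap φ ∧ a * x ∈ c := by
    rintro Q c x ⟨s, hs, hsx⟩
    obtain ⟨⟨s', t⟩, hst⟩ := IsLocalization.surj P.primeCompl s
    have hst' : s * φ t = φ s' := hst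
    have h1 : φ (s' * x) ∈ c.map φ := by
      rw [map_mul, ← hst', mul_right_comm]
      exact Ideal.mul_mem_right _ _ hsx
    rw [IsLocalization.algebraMap_mem_map_algebraMap_iff P.primeCompl] at h1
    obtain ⟨t', ht', htx⟩ := h1
    refine ⟨t' * s', ?_, by rw [mul_assoc]; exact htx⟩
    intro h2
    rcases (hQp Q).mem_or_mem h2 with h3 | h3
    · exact ht' (hQP Q h3)
    · have h4 : s * φ t ∈ (Q : Ideal R) := by rw [hst']; exact h3
      rcases Q.2.1.1.mem_or_mem h4 with h5 | h5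
      · exact hs h5
      · exact t.2 (hQP Q h5)
  have hmapI : ∀ j : ℕ, (I₀ ^ j).map φ = I ^ j := by
    intro j
    rw [Ideal.map_pow, hI₀, IsLocalization.map_under P.primeCompl R I]
  have hgen : ∀ Q : I.minimalPrimes, ∃ U : Fin (h + 1) → S, (∀ j, U j ∈ I₀) ∧
      ∃ b, b ∉ (Q : Ideal R).comap φ ∧ ∀ x ∈ I₀, b * x ∈ Ideal.span (Set.range U) := by
    intro Q
    have hQ := hQp Q
    obtain ⟨u, hu, b, hb, hbu⟩ := reg_gens ((Q : Ideal R).comap φ) (h := h + 1) (by
      have := IsLocalization.height_under P.primeCompl (Q : Ideal R)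
      rw [Ideal.under_def] at this
      rw [this]
      exact hht Q Q.2)
    obtain ⟨a, ha, haI⟩ := common (hnoeth ((Q : Ideal R).comap φ)) ((Q : Ideal R).comap φ) I₀ (by
      intro x hx
      refine hRS Q I₀ x ?_
      have := hmapI 1
      rw [pow_one, pow_one] at this
      rw [this]
      have h1 : φ x ∈ (Q : Ideal R) := hx
      exact exists_mul_mem hI Q.2 h1)
    refine ⟨fun j => a * u j, fun j => haI _ (hu j), a * b, fun h => (hQ.mem_or_mem h).elim ha hb,
      fun x hx => ?_⟩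
    have h1 : b * x ∈ Ideal.span (Set.range u) := hbu x (by
      exact Q.2.1.2 hx)
    have h2 : Ideal.span (Set.range u) ≤ mulIn a (Ideal.span (Set.range fun j => a * u j)) := by
      rw [Ideal.span_le]
      rintro _ ⟨j, rfl⟩
      rw [SetLike.mem_coe, mem_mulIn, mul_comm]
      exact Ideal.subset_span ⟨j, rfl⟩
    have h3 := h2 h1
    rw [mem_mulIn] at h3
    have h4 : a * b * x = b * x * a := by ring
    rw [h4]
    exact h3
  choose U hUI b hb hbU using hgen
  -- powers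
  have hpow : ∀ (Q : I.minimalPrimes) (j : ℕ) (x : S), x ∈ I₀ ^ j →
      b Q ^ j * x ∈ Ideal.span (Set.range (U Q)) ^ j := by
    intro Q j
    induction j with
    | zero => intro x _; simp
    | succ j ih =>
      intro x hx
      rw [pow_succ] at hx
      refine Submodule.mul_induction_on hx ?_ ?_
      · intro y hy z hz
        have : b Q ^ (j + 1) * (y * z) = (b Q ^ j * y) * (b Q * z) := by ring
        rw [this, pow_succ]
        exact Ideal.mul_mem_mul (ih y hy) (hbU Q z hz)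
      · intro y z hy hz
        rw [mul_add]
        exact Ideal.add_mem _ hy hz
  have hsym : ∀ (Q : I.minimalPrimes) (j : ℕ) (x : S), φ x ∈ symb I j →
      ∃ a, a ∉ (Q : Ideal R).comap φ ∧ a * x ∈ Ideal.span (Set.range (U Q)) ^ j := by
    intro Q j x hx
    have hQ := hQp Q
    obtain ⟨s, hs, hsx⟩ := hx Q Q.2
    rw [← hmapI] at hsx
    obtain ⟨a, ha, hax⟩ := hRS Q _ x ⟨s, hs, hsx⟩
    refine ⟨b Q ^ j * a, ?_, ?_⟩
    · intro h
      rcases hQ.mem_or_mem h with h1 | h1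
      · exact hb Q (hQ.mem_of_pow_mem _ h1)
      · exact ha h1
    · rw [mul_assoc]
      exact hpow Q j _ hax
  have hs1 : ∀ Q : I.minimalPrimes, ∃ a, a ∉ (Q : Ideal R).comap φ ∧
      (∀ G ∈ J, a * G ∈ Ideal.span (Set.range (U Q)) ^ m) ∧
        a * F ∈ Ideal.span (Set.range (U Q)) ^ (m + h) := by
    intro Q
    have hQ := hQp Q
    obtain ⟨a, ha, haJ⟩ := common (hnoeth J) ((Q : Ideal R).comap φ)
      (Ideal.span (Set.range (U Q)) ^ m) (fun G hG => hsym Q m G hG)
    obtain ⟨a', ha', haF⟩ := hsym Q (m + h) F hFs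
    refine ⟨a * a', fun h => (hQ.mem_or_mem h).elim ha ha', fun G hG => ?_, ?_⟩
    · rw [mul_right_comm]
      exact Ideal.mul_mem_right _ _ (haJ G hG)
    · rw [mul_assoc]
      exact Ideal.mul_mem_left _ _ haF
  choose sQ hsQ hsQJ hsQF using hs1
  -- prime avoidance
  obtain ⟨s, hs, hsQ'⟩ : ∃ s ∈ Ideal.span (Set.range sQ), ∀ Q : I.minimalPrimes,
      s ∉ (Q : Ideal R).comap φ := by
    by_contra hcon
    push Not at hcon
    have := Fintype.ofFinite I.minimalPrimes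
    have h1 : ((Ideal.span (Set.range sQ) : Ideal S) : Set S) ⊆
        ⋃ Q ∈ ((Finset.univ : Finset I.minimalPrimes) : Set I.minimalPrimes),
          (((Q : Ideal R).comap φ : Ideal S) : Set S) := by
      intro s hs
      obtain ⟨Q, hQ⟩ := hcon s hs
      simp only [Set.mem_iUnion]
      exact ⟨Q, Finset.mem_coe.2 (Finset.mem_univ Q), hQ⟩
    obtain ⟨Q0, hQ0⟩ := hmin
    rw [Ideal.subset_union_prime ⟨Q0, hQ0⟩ ⟨Q0, hQ0⟩ (fun Q _ _ _ => hQp Q)] at h1
    obtain ⟨Q, -, hQ⟩ := h1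
    exact hsQ Q (hQ (Ideal.subset_span ⟨Q, rfl⟩))
  refine em_zero P J k F s v hh sQ U hs ?_ hkF hv hvJ hJP hsQJ hsQF ?_
  · intro x hx Q hQ
    obtain ⟨a, ha, hax⟩ := hx Q hQ
    refine ⟨a * φ s, fun h => ?_, ?_⟩
    · rcases hQ.1.1.mem_or_mem h with h1 | h1
      · exact ha h1
      · exact hsQ' ⟨Q, hQ⟩ h1
    · rw [map_mul] at hax
      rw [mul_assoc]
      exact hax
  · intro Q
    have h1 : Ideal.span (Set.range (U Q)) ≤ I₀ := by
      rw [Ideal.span_le]
      rintro _ ⟨j, rfl⟩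
      exact hUI Q j
    intro x hx
    have h2 : x ∈ I₀ ^ m := Ideal.pow_right_mono h1 m hx
    have h3 : φ x ∈ I ^ m := by
      rw [← hmapI]
      exact Ideal.mem_map_of_mem _ h2
    exact pow_le_symb I m h3

end Pool.Agent.W467.EM
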