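import Mathlib

/-!
Symbolic powers and the maximal ideal in characteristic `p`: the core argument.
-/

set_option autoImplicit false

namespace Pool.Agent.W467.EM

section frob

variable {T : Type*} [CommRing T] (p : ℕ) [Fact p.Prime] [CharP T p]

/-- iterated Frobenius powers of an ideal -/
noncomputable def fr : ℕ → Ideal T → Ideal T
  | 0, K => K
  | e + 1, K => (fr e K).map (frobenius T p)

/-- flatness of Frobenius in the form which is used here -/
def FF (T : Type*) [CommRing T] [CharP T p] : Prop :=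
  ∀ (K K' : Ideal T) (a x : T), (∀ y, a * y ∈ K → y ∈ K') → a ^ p * x ∈ K.map (frobenius T p) →
    x ∈ K'.map (frobenius T p)

variable {p}

theorem FF.iter (h : FF p T) (e : ℕ) (K K' : Ideal T) (a x : T) (hK : ∀ y, a * y ∈ K → y ∈ K')
    (hx : a ^ p ^ e * x ∈ fr p e K) : x ∈ fr p e K' := by
  induction e generalizing x with
  | zero =>
    simp only [fr, pow_zero, pow_one] at hx ⊢
    exact hK x hx
  | succ e ih =>
    simp only [fr] at hx ⊢
    refine h (fr p e K) (fr p e K') (a ^ p ^ e) x (fun y hy => ih y hy) ?_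
    rwa [← pow_mul, ← pow_succ]

theorem fr_mono (e : ℕ) {K K' : Ideal T} (h : K ≤ K') : fr p e K ≤ fr p e K' := by
  induction e with
  | zero => exact h
  | succ e ih => exact Ideal.map_mono ih

theorem fr_span (e : ℕ) (S : Set T) :
    fr p e (Ideal.span S) = Ideal.span ((fun x => x ^ p ^ e) '' S) := by
  induction e with
  | zero => simp [fr]
  | succ e ih =>
    simp only [fr]
    rw [ih, Ideal.map_span, ← Set.image_comp]
    congr 1
    ext x
    simp only [Set.mem_image, Function.comp_apply, frobenius_def, ← pow_mul, ← pow_succ]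

theorem fr_eq_span (e : ℕ) (K : Ideal T) :
    fr p e K = Ideal.span ((fun x => x ^ p ^ e) '' (K : Set T)) := by
  conv_lhs => rw [← Ideal.span_eq K]
  exact fr_span e _

theorem mem_fr (e : ℕ) {K : Ideal T} {x : T} (h : x ∈ K) : x ^ p ^ e ∈ fr p e K := by
  rw [fr_eq_span]
  exact Ideal.subset_span ⟨x, h, rfl⟩

theorem fr_mul (e : ℕ) (K K' : Ideal T) : fr p e (K * K') = fr p e K * fr p e K' := by
  induction e with
  | zero => rfl
  | succ e ih => simp only [fr]; rw [ih, Ideal.map_mul]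

theorem fr_sup (e : ℕ) (K K' : Ideal T) : fr p e (K ⊔ K') = fr p e K ⊔ fr p e K' := by
  induction e with
  | zero => rfl
  | succ e ih => simp only [fr]; rw [ih, Ideal.map_sup]

theorem fr_singleton (e : ℕ) (a : T) : fr p e (Ideal.span {a}) = Ideal.span {a ^ p ^ e} := by
  rw [fr_span, Set.image_singleton]

theorem fr_le_pow (e : ℕ) (K : Ideal T) : fr p e K ≤ K ^ p ^ e := by
  rw [fr_eq_span, Ideal.span_le]
  rintro _ ⟨x, hx, rfl⟩
  exact Ideal.pow_mem_pow hx _

/-- if all `a ^ q`, `a ∈ S`, are in the ideal `c`, then all `a ^ q`, `a ∈ span S`, are -/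
theorem pow_mem_of_span (e : ℕ) {S : Set T} {c : Ideal T} (h : ∀ a ∈ S, a ^ p ^ e ∈ c) {a : T}
    (ha : a ∈ Ideal.span S) : a ^ p ^ e ∈ c := by
  have h1 := mem_fr (p := p) e ha
  rw [fr_span] at h1
  refine (Ideal.span_le.2 ?_) h1
  rintro _ ⟨x, hx, rfl⟩
  exact h x hx

theorem pow_le_fr_one (e m : ℕ) (w : T) {b : ℕ} (hb : p ^ e * m ≤ b) :
    (Ideal.span {w} : Ideal T) ^ b ≤ fr p e ((Ideal.span {w} : Ideal T) ^ m) := by
  rw [Ideal.span_singleton_pow, Ideal.span_singleton_pow, fr_singleton, Ideal.span_singleton_le_iff_mem,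
    Ideal.mem_span_singleton, ← pow_mul, mul_comm m]
  exact pow_dvd_pow _ hb

theorem sum_ideal_le {ι : Type*} (s : Finset ι) (f : ι → Ideal T) (X : Ideal T)
    (h : ∀ i ∈ s, f i ≤ X) : ∑ i ∈ s, f i ≤ X := by
  classical
  induction s using Finset.induction_on with
  | empty => simp
  | insert a s ha ih =>
    rw [Finset.sum_insert ha, Submodule.add_eq_sup]
    exact sup_le (h a (Finset.mem_insert_self _ _))
      (ih (fun i hi => h i (Finset.mem_insert_of_mem hi)))

/-- the pigeonhole principle -/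
theorem pow_le_fr (e : ℕ) : ∀ (h m : ℕ) (u : Fin (h + 1) → T),
    (Ideal.span (Set.range u)) ^ (p ^ e * m + (p ^ e - 1) * h) ≤
      fr p e ((Ideal.span (Set.range u)) ^ m) := by
  have hq : 0 < p ^ e := pow_pos (Fact.out : p.Prime).pos e
  intro h
  induction h with
  | zero =>
    intro m u
    have : Set.range u = {u 0} := by
      ext x
      simp only [Set.mem_range, Set.mem_singleton_iff]
      constructor
      · rintro ⟨i, rfl⟩
        congr 1
        exact Fin.ext (by omega)
      · rintro rfl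
        exact ⟨0, rfl⟩
    rw [this]
    exact pow_le_fr_one e m _ (by omega)
  | succ h ih =>
    intro m u
    set w := u (Fin.last (h + 1)) with hw
    set U' := Ideal.span (Set.range (fun i : Fin (h + 1) => u i.castSucc)) with hU'
    have hU : Ideal.span (Set.range u) = U' ⊔ Ideal.span {w} := by
      rw [hU', ← Ideal.span_union]
      congr 1
      ext x
      simp only [Set.mem_range, Set.union_singleton, Set.mem_insert_iff]
      constructor
      · rintro ⟨i, rfl⟩
        induction i using Fin.lastCases with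
        | last => exact Or.inl rfl
        | cast i => exact Or.inr ⟨i, rfl⟩
      · rintro (rfl | ⟨i, rfl⟩)
        · exact ⟨_, rfl⟩
        · exact ⟨_, rfl⟩
    set X := fr p e ((Ideal.span (Set.range u)) ^ m) with hX
    rw [hU, ← Submodule.add_eq_sup, add_pow]
    refine sum_ideal_le _ _ _ fun a ha => ?_
    rw [Finset.mem_range] at ha
    refine le_trans Ideal.mul_le_left ?_
    set N := p ^ e * m + (p ^ e - 1) * (h + 1) with hN
    set b := N - a with hb
    set j := b / p ^ e with hj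
    have hjb : p ^ e * j ≤ b := Nat.mul_div_le _ _
    have hbj : b < p ^ e * j + p ^ e := by
      have := Nat.lt_mul_div_succ b hq
      rw [mul_add, mul_one] at this
      exact this
    have hw1 : Ideal.span {w} ≤ Ideal.span (Set.range u) := by rw [hU]; exact le_sup_right
    have hw2 : U' ≤ Ideal.span (Set.range u) := by rw [hU]; exact le_sup_left
    rcases Nat.lt_or_ge j m with hjm | hjm
    · have h1 : p ^ e * (m - j) + (p ^ e - 1) * h ≤ a := by
        have e1 : p ^ e * m = p ^ e * (m - j) + p ^ e * j := by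
          rw [← mul_add]; congr 1; omega
        have e2 : (p ^ e - 1) * (h + 1) = (p ^ e - 1) * h + (p ^ e - 1) := by ring
        omega
      have h2 : U' ^ a ≤ fr p e (U' ^ (m - j)) := (Ideal.pow_le_pow_right h1).trans (ih _ _)
      have h3 : Ideal.span {w} ^ b ≤ fr p e (Ideal.span {w} ^ j) := pow_le_fr_one e j w hjb
      refine (Ideal.mul_mono h2 h3).trans ?_
      rw [← fr_mul]
      refine fr_mono e ?_
      calc U' ^ (m - j) * Ideal.span {w} ^ j
          ≤ (Ideal.span (Set.range u)) ^ (m - j) * (Ideal.span (Set.range u)) ^ j :=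
            Ideal.mul_mono (Ideal.pow_right_mono hw2 _) (Ideal.pow_right_mono hw1 _)
        _ = (Ideal.span (Set.range u)) ^ m := by rw [← pow_add]; congr 1; omega
    · have h3 : Ideal.span {w} ^ b ≤ fr p e (Ideal.span {w} ^ m) :=
        pow_le_fr_one e m w ((Nat.mul_le_mul_left _ hjm).trans hjb)
      refine Ideal.mul_le_right.trans (h3.trans (fr_mono e (Ideal.pow_right_mono hw1 _)))

/-- the set of the multipliers of `y` into an ideal -/
def mulIn (y : T) (K : Ideal T) : Ideal T where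
  carrier := {x | x * y ∈ K}
  add_mem' := by
    intro a b ha hb
    simp only [Set.mem_ofPred_eq, add_mul] at *
    exact K.add_mem ha hb
  zero_mem' := by simp
  smul_mem' := by
    intro c x hx
    simp only [Set.mem_ofPred_eq, smul_eq_mul, mul_assoc] at *
    exact K.mul_mem_left c hx

theorem mem_mulIn {y x : T} {K : Ideal T} : x ∈ mulIn y K ↔ x * y ∈ K := Iff.rfl

/-- Krull's intersection theorem -/
theorem krull {T : Type*} [CommRing T] [IsNoetherianRing T] (M : Ideal T) (F G : T)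
    (h : ∀ n : ℕ, G ∈ Ideal.span {F} ⊔ M ^ n) : ∃ r ∈ M, (1 - r) * G ∈ Ideal.span {F} := by
  have h1 : (Submodule.Quotient.mk G : T ⧸ (Ideal.span {F} : Ideal T)) ∈
      (⨅ i : ℕ, M ^ i • ⊤ : Submodule T (T ⧸ (Ideal.span {F} : Ideal T))) := by
    rw [Submodule.mem_iInf]
    intro i
    obtain ⟨a, ha, b, hb, hab⟩ := Submodule.mem_sup.1 (h i)
    have h2 : (Submodule.Quotient.mk G : T ⧸ (Ideal.span {F} : Ideal T)) =
        b • (Submodule.Quotient.mk 1 : T ⧸ (Ideal.span {F} : Ideal T)) := by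
      rw [← Submodule.Quotient.mk_smul, Submodule.Quotient.eq, smul_eq_mul, mul_one, ← hab]
      simpa using ha
    rw [h2]
    exact Submodule.smul_mem_smul hb trivial
  rw [Ideal.mem_iInf_smul_pow_eq_bot_iff] at h1
  obtain ⟨r, hr⟩ := h1
  refine ⟨r, r.2, ?_⟩
  rw [← Submodule.Quotient.mk_smul, Submodule.Quotient.eq, smul_eq_mul] at hr
  have h3 := (Ideal.span {F}).neg_mem hr
  have h4 : -((r : T) * G - G) = (1 - r) * G := by ring
  rwa [h4] at h3

/-- The core argument. -/
theorem core {T : Type*} [CommRing T] [IsDomain T] [IsNoetherianRing T] {p : ℕ} [Fact p.Prime]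
    [CharP T p] (hFF : FF p T) (M : Ideal T) [hM : M.IsMaximal] (J k : Ideal T) (F s v : T)
    {m h : ℕ} (hh : 1 ≤ h) {ι : Type*} (sQ : ι → T) (U : ι → Fin (h + 1) → T)
    (hs : s ∈ Ideal.span (Set.range sQ)) (hJs : ∀ x, s * x ∈ J → x ∈ J)
    (hkF : ∀ x, F * x ∈ k → x ∈ M) (hv : v ∉ M) (hvJ : ∀ G ∈ J, v * G ∈ k ⊔ Ideal.span {F})
    (hJM : J ≤ M) (h1 : ∀ i, ∀ G ∈ J, sQ i * G ∈ (Ideal.span (Set.range (U i))) ^ m)
    (h2 : ∀ i, sQ i * F ∈ (Ideal.span (Set.range (U i))) ^ (m + h))
    (h3 : ∀ i, (Ideal.span (Set.range (U i))) ^ m ≤ J) : False := by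
  classical
  have hp := (Fact.out : p.Prime)
  have hF0 : F ≠ 0 := by
    intro h0
    apply hM.ne_top
    rw [Ideal.eq_top_iff_one]
    apply hkF
    rw [h0, zero_mul]
    exact k.zero_mem
  -- step A
  have hA : ∀ e : ℕ, ∀ G ∈ J, F ^ (p ^ e - 1) * G ∈ fr p e J := by
    intro e G hG
    have hq : 0 < p ^ e := pow_pos hp.pos e
    refine hFF.iter e J J s _ hJs ?_
    rw [← mem_mulIn]
    refine pow_mem_of_span (S := Set.range sQ) e ?_ hs
    rintro _ ⟨i, rfl⟩
    rw [mem_mulIn]
    have e1 : sQ i ^ p ^ e * (F ^ (p ^ e - 1) * G) = (sQ i * F) ^ (p ^ e - 1) * (sQ i * G) := by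
      obtain ⟨q, hq'⟩ : ∃ q, p ^ e = q + 1 := ⟨p ^ e - 1, by omega⟩
      rw [hq', Nat.add_sub_cancel]
      ring
    rw [e1]
    have e2 : (sQ i * F) ^ (p ^ e - 1) * (sQ i * G) ∈
        ((Ideal.span (Set.range (U i))) ^ (m + h)) ^ (p ^ e - 1) *
          (Ideal.span (Set.range (U i))) ^ m :=
      Ideal.mul_mem_mul (Ideal.pow_mem_pow (h2 i) _) (h1 i G hG)
    rw [← pow_mul, ← pow_add] at e2
    have e3 : (m + h) * (p ^ e - 1) + m = p ^ e * m + (p ^ e - 1) * h := by
      obtain ⟨q, hq'⟩ : ∃ q, p ^ e = q + 1 := ⟨p ^ e - 1, by omega⟩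
      rw [hq', Nat.add_sub_cancel]
      ring
    rw [e3] at e2
    exact fr_mono e (h3 i) (pow_le_fr e h m (U i) e2)
  -- step B
  have hB : ∀ e : ℕ, ∀ G ∈ J, ∃ a : T, v ^ p ^ e * G - a * F ∈ M ^ p ^ e := by
    intro e G hG
    have hq : 0 < p ^ e := pow_pos hp.pos e
    have e1 : v ^ p ^ e * (F ^ (p ^ e - 1) * G) ∈ fr p e k ⊔ Ideal.span {F ^ p ^ e} := by
      have e2 : fr p e J ≤ mulIn (v ^ p ^ e) (fr p e k ⊔ Ideal.span {F ^ p ^ e}) := by
        rw [fr_eq_span, Ideal.span_le]
        rintro _ ⟨y, hy, rfl⟩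
        rw [SetLike.mem_coe, mem_mulIn]
        rw [← mul_pow, ← fr_singleton, ← fr_sup]
        apply mem_fr
        rw [mul_comm]
        exact hvJ y hy
      have e3 := e2 (hA e G hG)
      rw [mem_mulIn, mul_comm] at e3
      exact e3
    obtain ⟨k', hk', b, hb, hkb⟩ := Submodule.mem_sup.1 e1
    rw [Ideal.mem_span_singleton] at hb
    obtain ⟨a, rfl⟩ := hb
    refine ⟨a, fr_le_pow (p := p) e M (hFF.iter e k M F _ hkF ?_)⟩
    have e4 : F ^ p ^ e * (v ^ p ^ e * G - a * F) = F * k' := by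
      have e5 : F * k' = F * (v ^ p ^ e * (F ^ (p ^ e - 1) * G)) - F * (F ^ p ^ e * a) := by
        rw [← hkb]; ring
      rw [e5]
      obtain ⟨q, hq'⟩ : ∃ q, p ^ e = q + 1 := ⟨p ^ e - 1, by omega⟩
      rw [hq', Nat.add_sub_cancel]
      ring
    rw [e4]
    exact Ideal.mul_mem_left _ _ hk'
  -- step C, D
  have hD : ∀ G ∈ J, ∃ w, w ∉ M ∧ w * G ∈ Ideal.span {F} := by
    intro G hG
    obtain ⟨w, hw⟩ : ∃ w, v * w - 1 ∈ M := by
      obtain ⟨y, i, hi, hyi⟩ := hM.exists_inv hv
      refine ⟨y, ?_⟩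
      have : v * y - 1 = -i := by rw [← hyi]; ring
      rw [this]
      exact M.neg_mem hi
    have hC : ∀ n : ℕ, G ∈ Ideal.span {F} ⊔ M ^ n := by
      intro n
      have hn : n ≤ p ^ n := (Nat.lt_pow_self hp.one_lt).le
      have h5 : M ^ p ^ n ≤ M ^ n := Ideal.pow_le_pow_right hn
      obtain ⟨a, ha⟩ := hB n G hG
      have h6 : (v * w) ^ p ^ n - 1 ∈ M ^ p ^ n := by
        have : (v * w) ^ p ^ n - 1 = (v * w - 1) ^ p ^ n := by
          rw [sub_pow_char_pow, one_pow]
        rw [this]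
        exact Ideal.pow_mem_pow hw _
      have h7 : G = (w ^ p ^ n * a) * F + (w ^ p ^ n * (v ^ p ^ n * G - a * F) -
          ((v * w) ^ p ^ n - 1) * G) := by ring
      rw [h7]
      refine Submodule.add_mem_sup ?_ ?_
      · exact Ideal.mem_span_singleton.2 (Dvd.intro_left _ rfl)
      · exact h5 ((M ^ p ^ n).sub_mem (Ideal.mul_mem_left _ _ ha) (Ideal.mul_mem_right _ _ h6))
    obtain ⟨r, hr, hrG⟩ := krull M F G hC
    refine ⟨1 - r, fun h => hM.ne_top ?_, hrG⟩
    rw [Ideal.eq_top_iff_one]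
    have := M.add_mem h hr
    simpa using this
  -- step E
  have hE : ∃ w, w ∉ M ∧ ∀ G ∈ J, w * G ∈ Ideal.span {F} := by
    obtain ⟨S, hS⟩ := (isNoetherianRing_iff_ideal_fg T).1 inferInstance J
    have hSJ : ∀ G ∈ S, G ∈ J := fun G hG => by rw [← hS]; exact Ideal.subset_span hG
    have key : ∀ G : T, ∃ w, w ∉ M ∧ (G ∈ J → w * G ∈ Ideal.span {F}) := by
      intro G
      by_cases hG : G ∈ J
      · obtain ⟨w, hw, hwG⟩ := hD G hG
        exact ⟨w, hw, fun _ => hwG⟩
      · exact ⟨1, fun h => hM.ne_top ((Ideal.eq_top_iff_one _).2 h), fun h => absurd h hG⟩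
    choose w hw hwG using key
    refine ⟨∏ G ∈ S, w G, ?_, ?_⟩
    · intro h
      obtain ⟨G, -, hG⟩ := (hM.isPrime.prod_mem_iff).1 h
      exact hw G hG
    · have h8 : J ≤ mulIn (∏ G ∈ S, w G) (Ideal.span {F}) := by
        rw [← hS, Ideal.span_le]
        intro G hG
        rw [SetLike.mem_coe, mem_mulIn]
        rw [← Finset.mul_prod_erase S w hG, mul_comm, mul_right_comm]
        exact Ideal.mul_mem_right _ _ (hwG G (hSJ G hG))
      intro G hG
      have := h8 hG
      rw [mem_mulIn, mul_comm] at this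
      exact this
  -- step F
  obtain ⟨w, hw, hwJ⟩ := hE
  have hrad : ∀ i, w * sQ i ∈ J.radical := by
    intro i
    set V := Ideal.span (Set.range (U i)) with hV
    have h9 : sQ i * F ∈ V ^ m * V := by
      rw [← pow_succ]
      exact Ideal.pow_le_pow_right (by omega) (h2 i)
    have h10 : ∀ x ∈ V ^ m * V, w * x ∈ Ideal.span {F} * V := by
      intro x hx
      refine Submodule.mul_induction_on hx ?_ ?_
      · intro a ha b hb
        rw [← mul_assoc]
        exact Ideal.mul_mem_mul (hwJ a (h3 i ha)) hb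
      · intro a b ha hb
        rw [mul_add]
        exact Ideal.add_mem _ ha hb
    obtain ⟨y, hy, hy'⟩ := Ideal.mem_span_singleton_mul.1 (h10 _ h9)
    have h11 : w * sQ i = y := by
      apply mul_left_cancel₀ hF0
      rw [hy']
      ring
    refine ⟨m, h3 i ?_⟩
    rw [h11]
    exact Ideal.pow_mem_pow hy _
  have hws : w * s ∈ J.radical := by
    have h12 : Ideal.span (Set.range sQ) ≤ mulIn w J.radical := by
      rw [Ideal.span_le]
      rintro _ ⟨i, rfl⟩
      rw [SetLike.mem_coe, mem_mulIn]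
      rw [mul_comm]
      exact hrad i
    have := h12 hs
    rwa [mem_mulIn, mul_comm] at this
  obtain ⟨N, hN⟩ := hws
  rw [mul_pow, mul_comm] at hN
  have h13 : ∀ n : ℕ, ∀ x, s ^ n * x ∈ J → x ∈ J := by
    intro n
    induction n with
    | zero => intro x hx; simpa using hx
    | succ n ih =>
      intro x hx
      apply ih
      apply hJs
      rwa [← mul_assoc, ← pow_succ']
  exact hw (hM.isPrime.mem_of_pow_mem N (hJM (h13 N _ hN)))

end frob

end Pool.Agent.W467.EM
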