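import Mathlib

/-!
Descent of ideals of polynomial rings to finitely generated subrings of the field, by monic
Gröbner sets.
-/

set_option autoImplicit false

namespace Pool.Agent.W467.EM

open MvPolynomial

section

variable {K : Type*} [Field K] {n : ℕ}

/-- the polynomials with coefficients in the subring `A` -/
noncomputable def pA (n : ℕ) (A : Subring K) : Subring (MvPolynomial (Fin n) K) :=
  (MvPolynomial.map A.subtype).range

theorem mem_pA {A : Subring K} {f : MvPolynomial (Fin n) K} :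
    f ∈ pA n A ↔ ∀ m, coeff m f ∈ A := by
  constructor
  · rintro ⟨g, rfl⟩ m
    rw [coeff_map]
    exact (coeff m g).2
  · intro h
    refine ⟨∑ m ∈ f.support, monomial m ⟨coeff m f, h m⟩, ?_⟩
    rw [map_sum]
    conv_rhs => rw [f.as_sum]
    refine Finset.sum_congr rfl fun m _ => ?_
    rw [map_monomial]
    rfl

theorem coeff_mem {A : Subring K} (f : pA n A) (m : Fin n →₀ ℕ) :
    coeff m (f : MvPolynomial (Fin n) K) ∈ A := mem_pA.1 f.2 m

/-- a property of subrings which holds for all subrings containing a suitable finite set -/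
def Ev (P : Subring K → Prop) : Prop := ∃ C : Finset K, ∀ A : Subring K, (C : Set K) ⊆ A → P A

theorem Ev.and {P Q : Subring K → Prop} (hP : Ev P) (hQ : Ev Q) : Ev (fun A => P A ∧ Q A) := by
  classical
  obtain ⟨C, hC⟩ := hP
  obtain ⟨D, hD⟩ := hQ
  refine ⟨C ∪ D, fun A hA => ⟨hC A fun x hx => hA ?_, hD A fun x hx => hA ?_⟩⟩
  · simp only [Finset.coe_union, Set.mem_union]
    exact Or.inl hx
  · simp only [Finset.coe_union, Set.mem_union]
    exact Or.inr hx

theorem Ev.mono {P Q : Subring K → Prop} (hP : Ev P) (h : ∀ A, P A → Q A) : Ev Q := by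
  obtain ⟨C, hC⟩ := hP
  exact ⟨C, fun A hA => h A (hC A hA)⟩

theorem Ev.of_forall {P : Subring K → Prop} (h : ∀ A, P A) : Ev P := ⟨∅, fun A _ => h A⟩

theorem Ev.ball {ι : Type*} {P : ι → Subring K → Prop} (s : Finset ι) (h : ∀ i ∈ s, Ev (P i)) :
    Ev (fun A => ∀ i ∈ s, P i A) := by
  classical
  induction s using Finset.induction_on with
  | empty => exact Ev.of_forall (by simp)
  | insert a s ha ih =>
    refine ((h a (Finset.mem_insert_self _ _)).and
      (ih fun i hi => h i (Finset.mem_insert_of_mem hi))).mono fun A hA i hi => ?_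
    rcases Finset.mem_insert.1 hi with rfl | hi
    · exact hA.1
    · exact hA.2 i hi

theorem Ev.all {ι : Type*} [Finite ι] {P : ι → Subring K → Prop} (h : ∀ i, Ev (P i)) :
    Ev (fun A => ∀ i, P i A) := by
  have := Fintype.ofFinite ι
  exact (Ev.ball Finset.univ fun i _ => h i).mono fun A hA i => hA i (Finset.mem_univ i)

theorem ev_mem (f : MvPolynomial (Fin n) K) : Ev (fun A => f ∈ pA n A) := by
  classical
  refine ⟨f.support.image (fun m => coeff m f), fun A hA => mem_pA.2 fun m => ?_⟩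
  by_cases hm : m ∈ f.support
  · exact hA (by simp only [Finset.coe_image, Set.mem_image, Finset.mem_coe]; exact ⟨m, hm, rfl⟩)
  · rw [notMem_support_iff.1 hm]
    exact A.zero_mem

/-- membership in the ideal `c` descends to membership in the ideals `cA` -/
def EvIn (c : Ideal (MvPolynomial (Fin n) K)) (cA : ∀ A : Subring K, Ideal (pA n A)) : Prop :=
  ∀ x ∈ c, Ev (fun A => ∃ b ∈ cA A, (b : MvPolynomial (Fin n) K) = x)

/-- the ideal generated by the elements of `Y` with coefficients in `A` -/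
noncomputable def spA (Y : Set (MvPolynomial (Fin n) K)) (A : Subring K) : Ideal (pA n A) :=
  Ideal.span {y : pA n A | (y : MvPolynomial (Fin n) K) ∈ Y}

theorem EvIn.span (Y : Set (MvPolynomial (Fin n) K)) : EvIn (Ideal.span Y) (spA Y) := by
  intro x hx
  refine Submodule.span_induction (p := fun x _ => Ev (fun A => ∃ b ∈ spA Y A,
    (b : MvPolynomial (Fin n) K) = x)) ?_ ?_ ?_ ?_ hx
  · intro y hy
    exact (ev_mem y).mono fun A hA => ⟨⟨y, hA⟩, Ideal.subset_span hy, rfl⟩
  · exact Ev.of_forall fun A => ⟨0, Ideal.zero_mem _, rfl⟩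
  · intro x y _ _ hx hy
    refine (hx.and hy).mono ?_
    rintro A ⟨⟨a, ha, rfl⟩, ⟨b, hb, rfl⟩⟩
    exact ⟨a + b, Ideal.add_mem _ ha hb, rfl⟩
  · intro a x _ hx
    refine ((ev_mem a).and hx).mono ?_
    rintro A ⟨ha, ⟨b, hb, rfl⟩⟩
    exact ⟨⟨a, ha⟩ * b, Ideal.mul_mem_left _ _ hb, rfl⟩

theorem EvIn.sup {c d : Ideal (MvPolynomial (Fin n) K)} {cA dA : ∀ A : Subring K, Ideal (pA n A)}
    (hc : EvIn c cA) (hd : EvIn d dA) : EvIn (c ⊔ d) (fun A => cA A ⊔ dA A) := by
  intro x hx
  obtain ⟨y, hy, z, hz, rfl⟩ := Submodule.mem_sup.1 hx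
  refine ((hc y hy).and (hd z hz)).mono ?_
  rintro A ⟨⟨a, ha, rfl⟩, ⟨b, hb, rfl⟩⟩
  exact ⟨a + b, Submodule.add_mem_sup ha hb, rfl⟩

theorem EvIn.mul {c d : Ideal (MvPolynomial (Fin n) K)} {cA dA : ∀ A : Subring K, Ideal (pA n A)}
    (hc : EvIn c cA) (hd : EvIn d dA) : EvIn (c * d) (fun A => cA A * dA A) := by
  intro x hx
  refine Submodule.mul_induction_on hx ?_ ?_
  · intro y hy z hz
    refine ((hc y hy).and (hd z hz)).mono ?_
    rintro A ⟨⟨a, ha, rfl⟩, ⟨b, hb, rfl⟩⟩
    exact ⟨a * b, Ideal.mul_mem_mul ha hb, rfl⟩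
  · intro x y hx hy
    refine (hx.and hy).mono ?_
    rintro A ⟨⟨a, ha, rfl⟩, ⟨b, hb, rfl⟩⟩
    exact ⟨a + b, Ideal.add_mem _ ha hb, rfl⟩

theorem EvIn.pow {c : Ideal (MvPolynomial (Fin n) K)} {cA : ∀ A : Subring K, Ideal (pA n A)}
    (hc : EvIn c cA) (m : ℕ) : EvIn (c ^ m) (fun A => cA A ^ m) := by
  induction m with
  | zero =>
    intro x _
    exact (ev_mem x).mono fun A hA => ⟨⟨x, hA⟩, by simp, rfl⟩
  | succ m ih =>
    simp only [pow_succ]
    exact ih.mul hc

theorem EvIn.comap (c : Ideal (MvPolynomial (Fin n) K)) :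
    EvIn c (fun A => c.comap (pA n A).subtype) := by
  intro x hx
  exact (ev_mem x).mono fun A hA => ⟨⟨x, hA⟩, hx, rfl⟩

/-! ### monic Gröbner sets -/

/-- the monomial order -/
noncomputable abbrev mo (n : ℕ) : MonomialOrder (Fin n) := MonomialOrder.lex

theorem exists_gb (b : Ideal (MvPolynomial (Fin n) K)) :
    ∃ G : Finset (MvPolynomial (Fin n) K), (∀ g ∈ G, g ∈ b ∧ (mo n).leadingCoeff g = 1) ∧
      ∀ u ∈ b, u ≠ 0 → ∃ g ∈ G, (mo n).degree g ≤ (mo n).degree u := by
  classical
  set D : Set (Fin n →₀ ℕ) := {d | ∃ f ∈ b, f ≠ 0 ∧ (mo n).degree f = d} with hD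
  have hfg : (Submodule.span (MvPolynomial (Fin n) K)
      ((fun s => monomial s (1 : K)) '' D)).FG :=
    (isNoetherianRing_iff_ideal_fg _).1 inferInstance _
  rw [Submodule.fg_span_iff_fg_span_finset_subset] at hfg
  obtain ⟨s', hs', hspan⟩ := hfg
  have hch : ∀ x ∈ s', ∃ g, g ∈ b ∧ (mo n).leadingCoeff g = 1 ∧
      x = monomial ((mo n).degree g) (1 : K) := by
    intro x hx
    obtain ⟨d, ⟨f, hf, hf0, rfl⟩, rfl⟩ := hs' hx
    have hlc : (mo n).leadingCoeff f ≠ 0 := (mo n).leadingCoeff_ne_zero_iff.2 hf0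
    have hreg : IsRegular ((mo n).leadingCoeff f)⁻¹ :=
      (isUnit_iff_ne_zero.2 (inv_ne_zero hlc)).isRegular
    refine ⟨C ((mo n).leadingCoeff f)⁻¹ * f, b.mul_mem_left _ hf, ?_, ?_⟩
    · rw [← smul_eq_C_mul, MonomialOrder.leadingCoeff, (mo n).degree_smul_of_isRegular hreg,
        coeff_smul, smul_eq_mul]
      exact inv_mul_cancel₀ hlc
    · rw [← smul_eq_C_mul, (mo n).degree_smul_of_isRegular hreg]
  choose! g hg using hch
  refine ⟨s'.image g, ?_, ?_⟩
  · intro x hx
    obtain ⟨y, hy, rfl⟩ := Finset.mem_image.1 hx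
    exact ⟨(hg y hy).1, (hg y hy).2.1⟩
  · intro u hu hu0
    have h1 : monomial ((mo n).degree u) (1 : K) ∈ Ideal.span
        ((fun s => monomial s (1 : K)) '' D) := Ideal.subset_span ⟨_, ⟨u, hu, hu0, rfl⟩, rfl⟩
    have h2 : Ideal.span ((fun s => monomial s (1 : K)) '' D) =
        Ideal.span ((fun s => monomial s (1 : K)) ''
          ((fun x => (mo n).degree (g x)) '' (s' : Set (MvPolynomial (Fin n) K)))) := by
      change Submodule.span _ _ = Submodule.span _ _
      rw [hspan, ← Set.image_comp]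
      congr 1
      ext x
      simp only [Finset.mem_coe, Set.mem_image, Function.comp_apply]
      constructor
      · intro hx
        exact ⟨x, hx, ((hg x hx).2.2).symm⟩
      · rintro ⟨y, hy, rfl⟩
        rw [← (hg y hy).2.2]
        exact hy
    rw [h2, mem_ideal_span_monomial_image] at h1
    obtain ⟨si, ⟨x, hx, rfl⟩, hle⟩ := h1 ((mo n).degree u) (by
      rw [mem_support_iff, coeff_monomial, if_pos rfl]; exact one_ne_zero)
    exact ⟨g x, Finset.mem_image_of_mem _ hx, hle⟩

/-- the polynomials with coefficients in the ideal `N` of `A` -/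
noncomputable def cI {A : Subring K} (N : Ideal A) : Ideal (pA n A) where
  carrier := {f | ∀ m, (⟨coeff m (f : MvPolynomial (Fin n) K), coeff_mem f m⟩ : A) ∈ N}
  add_mem' := by
    intro f g hf hg m
    have := N.add_mem (hf m) (hg m)
    convert this using 1
    apply Subtype.ext
    simp
  zero_mem' := by
    intro m
    convert N.zero_mem using 1
    apply Subtype.ext
    simp
  smul_mem' := by
    intro c f hf m
    have h1 : (⟨coeff m ((c • f : pA n A) : MvPolynomial (Fin n) K), coeff_mem _ m⟩ : A) =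
        ∑ x ∈ Finset.HasAntidiagonal.antidiagonal m,
          (⟨coeff x.1 (c : MvPolynomial (Fin n) K), coeff_mem c x.1⟩ : A) *
            ⟨coeff x.2 (f : MvPolynomial (Fin n) K), coeff_mem f x.2⟩ := by
      apply Subtype.ext
      push_cast
      rw [smul_eq_mul, Subring.coe_mul, coeff_mul]
    change (⟨coeff m ((c • f : pA n A) : MvPolynomial (Fin n) K), _⟩ : A) ∈ N
    rw [h1]
    exact N.sum_mem fun x _ => N.mul_mem_left _ (hf _)

theorem mem_cI {A : Subring K} {N : Ideal A} {f : pA n A} :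
    f ∈ cI N ↔ ∀ m, (⟨coeff m (f : MvPolynomial (Fin n) K), coeff_mem f m⟩ : A) ∈ N := Iff.rfl

/-- the Gröbner property of an ideal `b'` over `A` -/
def GB {A : Subring K} (b : Ideal (MvPolynomial (Fin n) K)) (b' : Ideal (pA n A)) : Prop :=
  ∀ u ∈ b, u ≠ 0 → ∃ g ∈ b', (mo n).leadingCoeff (g : MvPolynomial (Fin n) K) = 1 ∧
    (mo n).degree (g : MvPolynomial (Fin n) K) ≤ (mo n).degree u

theorem ev_GB {b : Ideal (MvPolynomial (Fin n) K)} {bA : ∀ A : Subring K, Ideal (pA n A)}
    (h : EvIn b bA) : Ev (fun A => GB b (bA A)) := by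
  obtain ⟨G, hG, hG'⟩ := exists_gb b
  refine (Ev.ball G fun g hg => h g (hG g hg).1).mono fun A hA u hu hu0 => ?_
  obtain ⟨g, hg, hle⟩ := hG' u hu hu0
  obtain ⟨x, hx, hxg⟩ := hA g hg
  exact ⟨x, hx, by rw [hxg]; exact (hG g hg).2, by rw [hxg]; exact hle⟩

theorem purity {A : Subring K} {b : Ideal (MvPolynomial (Fin n) K)} {b' : Ideal (pA n A)}
    (hb' : ∀ x ∈ b', (x : MvPolynomial (Fin n) K) ∈ b) (h : GB b b') (N : Ideal A) :
    ∀ f : pA n A, (f : MvPolynomial (Fin n) K) ∈ b → f ∈ cI N → f ∈ cI N * b' := by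
  classical
  intro f
  induction hd : (mo n).toSyn ((mo n).degree (f : MvPolynomial (Fin n) K)) using
    WellFoundedLT.induction generalizing f with
  | ind d ih =>
  intro hf hfN
  by_cases hf0 : (f : MvPolynomial (Fin n) K) = 0
  · have : f = 0 := Subtype.ext hf0
    rw [this]
    exact Ideal.zero_mem _
  obtain ⟨g, hg, hg1, hle⟩ := h f hf hf0
  set fK := (f : MvPolynomial (Fin n) K) with hfK
  set gK := (g : MvPolynomial (Fin n) K) with hgK
  set l := (mo n).leadingCoeff fK with hl
  set e := (mo n).degree fK - (mo n).degree gK with he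
  have htA : monomial e l ∈ pA n A := by
    rw [mem_pA]
    intro m
    rw [coeff_monomial]
    split_ifs
    · exact coeff_mem f _
    · exact A.zero_mem
  set t : pA n A := ⟨monomial e l, htA⟩ with ht
  have htN : t ∈ cI N := by
    rw [mem_cI]
    intro m
    by_cases hm : e = m
    · have := hfN ((mo n).degree fK)
      convert this using 1
      apply Subtype.ext
      change coeff m (monomial e l) = _
      rw [coeff_monomial, if_pos hm]
      rfl
    · convert N.zero_mem using 1
      apply Subtype.ext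
      change coeff m (monomial e l) = _
      rw [coeff_monomial, if_neg hm]
      rfl
  set f' : pA n A := f - t * g with hf'
  have hf'K : (f' : MvPolynomial (Fin n) K) = fK - monomial e l * gK := rfl
  have hf'b : (f' : MvPolynomial (Fin n) K) ∈ b := by
    rw [hf'K]
    exact b.sub_mem hf (b.mul_mem_left _ (hb' g hg))
  have hf'N : f' ∈ cI N := (cI N).sub_mem hfN (Ideal.mul_mem_right _ _ htN)
  have htg : t * g ∈ cI N * b' := Ideal.mul_mem_mul htN hg
  have hff' : f = f' + t * g := by rw [hf']; ring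
  rw [hff']
  refine Ideal.add_mem _ ?_ htg
  by_cases hd0 : (mo n).degree fK = 0
  · have hgd : (mo n).degree gK = 0 := by
      rw [hd0] at hle
      exact le_antisymm hle zero_le
    have h1 : (f' : MvPolynomial (Fin n) K) = 0 := by
      have h2 := (mo n).eq_C_of_degree_eq_zero hd0
      have h3 := (mo n).eq_C_of_degree_eq_zero hgd
      rw [hg1, map_one] at h3
      rw [hf'K, h3, mul_one, he, hd0, hgd, tsub_zero, h2, ← hl]
      rw [sub_eq_zero]
      rfl
    have : f' = 0 := Subtype.ext h1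
    rw [this]
    exact Ideal.zero_mem _
  · refine ih _ ?_ f' rfl hf'b hf'N
    rw [← hd]
    have hu : IsUnit ((mo n).leadingCoeff gK) := by rw [hg1]; exact isUnit_one
    have h4 := (mo n).degree_reduce_lt hu hle hd0
    have h5 : (mo n).reduce hu fK = fK - monomial e l * gK := by
      unfold MonomialOrder.reduce
      congr 3
      have : (hu.unit⁻¹ : Kˣ) = 1 := by
        rw [inv_eq_one]
        apply Units.ext
        rw [IsUnit.unit_spec, hg1]
        rfl
      rw [this, Units.val_one, one_mul]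
    rw [h5] at h4
    exact h4

end

end Pool.Agent.W467.EM
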