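import Pool.Agent.W467.EM.Zero2

/-!
Symbolic powers in localizations of polynomial rings.
-/

set_option autoImplicit false

namespace Pool.Agent.W467.EM

section gen

variable {S : Type*} [CommRing S]

/-- common denominators -/
theorem common {J : Ideal S} (hJ : J.FG) (Q : Ideal S) [hQ : Q.IsPrime] (c : Ideal S)
    (h : ∀ G ∈ J, ∃ a, a ∉ Q ∧ a * G ∈ c) : ∃ a, a ∉ Q ∧ ∀ G ∈ J, a * G ∈ c := by
  classical
  obtain ⟨T, hT⟩ := hJ
  have hTJ : ∀ G ∈ T, G ∈ J := fun G hG => by rw [← hT]; exact Ideal.subset_span hG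
  have key : ∀ G : S, ∃ w, w ∉ Q ∧ (G ∈ J → w * G ∈ c) := by
    intro G
    by_cases hG : G ∈ J
    · obtain ⟨w, hw, hwG⟩ := h G hG
      exact ⟨w, hw, fun _ => hwG⟩
    · exact ⟨1, fun h => hQ.ne_top ((Ideal.eq_top_iff_one _).2 h), fun h => absurd h hG⟩
  choose w hw hwG using key
  refine ⟨∏ G ∈ T, w G, ?_, ?_⟩
  · intro h
    obtain ⟨G, -, hG⟩ := (hQ.prod_mem_iff).1 h
    exact hw G hG
  · have h8 : J ≤ mulIn (∏ G ∈ T, w G) c := by
      rw [← hT, Ideal.span_le]
      intro G hG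
      rw [SetLike.mem_coe, mem_mulIn]
      rw [← Finset.mul_prod_erase T w hG, mul_comm, mul_right_comm]
      exact Ideal.mul_mem_right _ _ (hwG G (hTJ G hG))
    intro G hG
    have := h8 hG
    rw [mem_mulIn, mul_comm] at this
    exact this

/-- primes of regular rings are locally generated by height many elements -/
theorem reg_gens [IsRegularRing S] (Q : Ideal S) [hQ : Q.IsPrime] {h : ℕ}
    (hht : Q.height ≤ h) : ∃ u : Fin h → S, (∀ j, u j ∈ Q) ∧
      ∃ b, b ∉ Q ∧ ∀ x ∈ Q, b * x ∈ Ideal.span (Set.range u) := by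
  classical
  have hreg : IsRegularLocalRing (Localization.AtPrime Q) := inferInstance
  have h1 := hreg.spanFinrank_maximalIdeal
  rw [IsLocalization.AtPrime.ringKrullDim_eq_height Q (Localization.AtPrime Q)] at h1
  have h2 : (IsLocalRing.maximalIdeal (Localization.AtPrime Q)).spanFinrank ≤ h := by
    have h3 : (((IsLocalRing.maximalIdeal (Localization.AtPrime Q)).spanFinrank : ℕ∞) :
        WithBot ℕ∞) ≤ ((h : ℕ∞) : WithBot ℕ∞) := by
      calc (((IsLocalRing.maximalIdeal (Localization.AtPrime Q)).spanFinrank : ℕ∞) : WithBot ℕ∞)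
          = ((Q.height : ℕ∞) : WithBot ℕ∞) := h1
        _ ≤ ((h : ℕ∞) : WithBot ℕ∞) := WithBot.coe_le_coe.2 hht
    exact_mod_cast h3
  obtain ⟨s, hs, hspan⟩ := Submodule.FG.exists_span_finset_card_eq_spanFinrank
    ((isNoetherianRing_iff_ideal_fg _).1 (inferInstance : IsNoetherianRing (Localization.AtPrime Q))
      (IsLocalRing.maximalIdeal (Localization.AtPrime Q)))
  have hscard : s.card ≤ h := hs ▸ h2
  -- the generators
  obtain ⟨w, hw⟩ : ∃ w : Fin h → Localization.AtPrime Q,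
      Ideal.span (Set.range w) = IsLocalRing.maximalIdeal (Localization.AtPrime Q) := by
    refine ⟨fun j => if hj : j.1 < s.card then (s.equivFin.symm ⟨j.1, hj⟩ : s) else 0, ?_⟩
    apply le_antisymm
    · rw [Ideal.span_le]
      rintro _ ⟨j, rfl⟩
      by_cases hj : j.1 < s.card
      · simp only [hj, dif_pos]
        rw [← hspan]
        exact Submodule.subset_span (s.equivFin.symm ⟨j.1, hj⟩).2
      · simp only [hj, dif_neg, not_false_eq_true]
        exact Ideal.zero_mem _
    · rw [← hspan]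
      refine Submodule.span_le.2 fun x hx => ?_
      refine Ideal.subset_span ⟨⟨(s.equivFin ⟨x, hx⟩).1, lt_of_lt_of_le (s.equivFin ⟨x, hx⟩).2 hscard⟩,
        ?_⟩
      simp
  have key : ∀ j, ∃ u : S, ∃ t : Q.primeCompl,
      w j * algebraMap S (Localization.AtPrime Q) t = algebraMap S (Localization.AtPrime Q) u := by
    intro j
    obtain ⟨⟨u, t⟩, hut⟩ := IsLocalization.surj Q.primeCompl (w j)
    exact ⟨u, t, hut⟩
  choose u t hut using key
  have hwm : ∀ j, w j ∈ IsLocalRing.maximalIdeal (Localization.AtPrime Q) := fun j => by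
    rw [← hw]; exact Ideal.subset_span ⟨j, rfl⟩
  refine ⟨u, fun j => ?_, ?_⟩
  · rw [← IsLocalization.AtPrime.to_map_mem_maximal_iff (Localization.AtPrime Q) Q, ← hut]
    exact Ideal.mul_mem_right _ _ (hwm j)
  · have h3 : IsLocalRing.maximalIdeal (Localization.AtPrime Q) ≤
        (Ideal.span (Set.range u)).map (algebraMap S (Localization.AtPrime Q)) := by
      rw [← hw, Ideal.span_le]
      rintro _ ⟨j, rfl⟩
      have hunit : IsUnit (algebraMap S (Localization.AtPrime Q) (t j)) :=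
        IsLocalization.map_units _ (t j)
      rw [SetLike.mem_coe, ← Ideal.mul_unit_mem_iff_mem _ hunit, hut]
      exact Ideal.mem_map_of_mem _ (Ideal.subset_span ⟨j, rfl⟩)
    refine common ((isNoetherianRing_iff_ideal_fg S).1 inferInstance Q) Q _ fun x hx => ?_
    have h4 : algebraMap S (Localization.AtPrime Q) x ∈
        (Ideal.span (Set.range u)).map (algebraMap S (Localization.AtPrime Q)) :=
      h3 ((IsLocalization.AtPrime.to_map_mem_maximal_iff (Localization.AtPrime Q) Q x).2 hx)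
    rw [IsLocalization.algebraMap_mem_map_algebraMap_iff Q.primeCompl] at h4
    obtain ⟨b, hb, hbx⟩ := h4
    exact ⟨b, hb, hbx⟩

/-- the symbolic powers of an ideal: the elements which are locally at each minimal prime in the
power -/
def symb (I : Ideal S) (m : ℕ) : Ideal S where
  carrier := {x | ∀ Q ∈ I.minimalPrimes, ∃ s, s ∉ Q ∧ s * x ∈ I ^ m}
  add_mem' := by
    intro x y hx hy Q hQ
    obtain ⟨s, hs, hsx⟩ := hx Q hQ
    obtain ⟨t, ht, hty⟩ := hy Q hQ
    refine ⟨s * t, fun h => (hQ.1.1.mem_or_mem h).elim hs ht, ?_⟩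
    have : s * t * (x + y) = t * (s * x) + s * (t * y) := by ring
    rw [this]
    exact Ideal.add_mem _ (Ideal.mul_mem_left _ _ hsx) (Ideal.mul_mem_left _ _ hty)
  zero_mem' := by
    intro Q hQ
    refine ⟨1, fun h => hQ.1.1.ne_top ((Ideal.eq_top_iff_one _).2 h), ?_⟩
    rw [mul_zero]
    exact Ideal.zero_mem _
  smul_mem' := by
    intro c x hx Q hQ
    obtain ⟨s, hs, hsx⟩ := hx Q hQ
    refine ⟨s, hs, ?_⟩
    have : s * (c • x) = c * (s * x) := by rw [smul_eq_mul]; ring
    rw [this]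
    exact Ideal.mul_mem_left _ _ hsx

theorem mem_symb {I : Ideal S} {m : ℕ} {x : S} :
    x ∈ symb I m ↔ ∀ Q ∈ I.minimalPrimes, ∃ s, s ∉ Q ∧ s * x ∈ I ^ m := Iff.rfl

theorem symb_anti (I : Ideal S) {m m' : ℕ} (h : m ≤ m') : symb I m' ≤ symb I m := by
  intro x hx Q hQ
  obtain ⟨s, hs, hsx⟩ := hx Q hQ
  exact ⟨s, hs, Ideal.pow_le_pow_right h hsx⟩

theorem pow_le_symb (I : Ideal S) (m : ℕ) : I ^ m ≤ symb I m := by
  intro x hx Q hQ
  exact ⟨1, fun h => hQ.1.1.ne_top ((Ideal.eq_top_iff_one _).2 h), by rwa [one_mul]⟩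

end gen

end Pool.Agent.W467.EM
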