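import Pool.Agent.W467.EM.Core
import Pool.Agent.W467.EM.Desc
import Pool.Agent.H737R3.Cont.Comp

/-!
Reduction modulo a maximal ideal of a finitely generated subring.
-/

set_option autoImplicit false

namespace Pool.Agent.W467.EM

open MvPolynomial

theorem FF_mvPolynomial {k : Type*} [Field k] (p : ℕ) [Fact p.Prime] [CharP k p] [PerfectRing k p]
    (n : ℕ) : FF p (MvPolynomial (Fin n) k) := by
  intro K K' a x hK hx
  change x ∈ Pool.Agent.H737R3.Cont.fro p K'
  refine Pool.Agent.H737R3.Cont.fro_of_cmp_mem fun b hb => hK _ ?_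
  rw [← Pool.Agent.H737R3.Cont.cmp_pow_mul hb]
  exact Pool.Agent.H737R3.Cont.cmp_mem_of_fro hx hb

section

variable {K : Type*} [Field K] {n : ℕ}

theorem spA_singleton {A : Subring K} (f : pA n A) :
    spA {(f : MvPolynomial (Fin n) K)} A = Ideal.span {f} := by
  unfold spA
  congr 1
  ext y
  simp only [Set.mem_singleton_iff]
  exact ⟨fun h => Subtype.ext h, fun h => by rw [h]; rfl⟩

theorem coe_mem_span {A : Subring K} {Y : Set (MvPolynomial (Fin n) K)} {x : pA n A}
    (h : x ∈ spA Y A) : (x : MvPolynomial (Fin n) K) ∈ Ideal.span Y := by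
  have h1 : spA Y A ≤ (Ideal.span Y).comap (pA n A).subtype := by
    unfold spA
    rw [Ideal.span_le]
    intro y hy
    exact Ideal.subset_span hy
  exact h1 h

theorem coe_mem_pow {A : Subring K} {c : Ideal (MvPolynomial (Fin n) K)} {cA : Ideal (pA n A)}
    (hc : ∀ x ∈ cA, (x : MvPolynomial (Fin n) K) ∈ c) (m : ℕ) {x : pA n A} (h : x ∈ cA ^ m) :
    (x : MvPolynomial (Fin n) K) ∈ c ^ m := by
  have h1 : cA ≤ c.comap (pA n A).subtype := hc
  have h2 : cA ^ m ≤ (c ^ m).comap (pA n A).subtype :=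
    (Ideal.pow_right_mono h1 m).trans (Ideal.le_comap_pow _ _)
  exact h2 h

/-- colon ideals and reduction -/
theorem colon_red {A : Subring K} {a c : Ideal (MvPolynomial (Fin n) K)} (f : pA n A)
    (hcol : ∀ y : MvPolynomial (Fin n) K, (f : MvPolynomial (Fin n) K) * y ∈ a → y ∈ c)
    (hGB : GB (a ⊔ Ideal.span {(f : MvPolynomial (Fin n) K)})
      (a.comap (pA n A).subtype ⊔ spA {(f : MvPolynomial (Fin n) K)} A)) (N : Ideal A)
    (w : pA n A) (h : f * w ∈ a.comap (pA n A).subtype ⊔ cI N) :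
    w ∈ c.comap (pA n A).subtype ⊔ cI N := by
  obtain ⟨α, hα, ν, hν, hαν⟩ := Submodule.mem_sup.1 h
  have hb' : ∀ x ∈ a.comap (pA n A).subtype ⊔ spA {(f : MvPolynomial (Fin n) K)} A,
      (x : MvPolynomial (Fin n) K) ∈ a ⊔ Ideal.span {(f : MvPolynomial (Fin n) K)} := by
    intro x hx
    obtain ⟨y, hy, z, hz, rfl⟩ := Submodule.mem_sup.1 hx
    exact Submodule.add_mem_sup hy (coe_mem_span hz)
  have hνb : (ν : MvPolynomial (Fin n) K) ∈ a ⊔ Ideal.span {(f : MvPolynomial (Fin n) K)} := by
    have e1 : (ν : MvPolynomial (Fin n) K) = -(α : MvPolynomial (Fin n) K) +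
        (f : MvPolynomial (Fin n) K) * w := by
      have : ν = -α + f * w := by rw [← hαν]; ring
      rw [this]
      rfl
    rw [e1]
    exact Submodule.add_mem_sup (a.neg_mem hα) (Ideal.mul_mem_right _ _
      (Ideal.mem_span_singleton_self _))
  have h1 := purity hb' hGB N ν hνb hν
  rw [Ideal.mul_sup, spA_singleton] at h1
  obtain ⟨β, hβ, γ, hγ, hβγ⟩ := Submodule.mem_sup.1 h1
  obtain ⟨w', hw', hw'γ⟩ := Ideal.mem_mul_span_singleton.1 hγ
  have h2 : f * (w - w') ∈ a.comap (pA n A).subtype := by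
    have e2 : f * (w - w') = α + β := by
      have : f * w = α + (β + γ) := by rw [hβγ, hαν]
      rw [mul_sub, this, ← hw'γ]
      ring
    rw [e2]
    exact Ideal.add_mem _ hα (Ideal.mul_le_right hβ)
  have h3 : w - w' ∈ c.comap (pA n A).subtype := hcol _ h2
  have e3 : w = (w - w') + w' := by ring
  rw [e3]
  exact Submodule.add_mem_sup h3 hw'

/-- the polynomial ring over `A` -/
noncomputable def eA (n : ℕ) (A : Subring K) : MvPolynomial (Fin n) A ≃+* pA n A :=
  RingEquiv.ofBijective ((MvPolynomial.map A.subtype).rangeRestrict)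
    ⟨fun x y h => by
      have h1 : MvPolynomial.map A.subtype x = MvPolynomial.map A.subtype y :=
        congrArg Subtype.val h
      exact MvPolynomial.map_injective _ Subtype.val_injective h1,
      RingHom.rangeRestrict_surjective _⟩

theorem coeff_eA {A : Subring K} (g : MvPolynomial (Fin n) A) (m : Fin n →₀ ℕ) :
    coeff m ((eA n A g : pA n A) : MvPolynomial (Fin n) K) = (coeff m g : A) := by
  change coeff m (MvPolynomial.map A.subtype g) = _
  rw [coeff_map]
  rfl

/-- reduction modulo `N` -/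
noncomputable def rh {A : Subring K} (N : Ideal A) : pA n A →+* MvPolynomial (Fin n) (A ⧸ N) :=
  (MvPolynomial.map (Ideal.Quotient.mk N)).comp ((eA n A).symm : pA n A →+* MvPolynomial (Fin n) A)

theorem coeff_rh {A : Subring K} (N : Ideal A) (f : pA n A) (m : Fin n →₀ ℕ) :
    coeff m (rh N f) =
      Ideal.Quotient.mk N ⟨coeff m (f : MvPolynomial (Fin n) K), coeff_mem f m⟩ := by
  obtain ⟨g, rfl⟩ := (eA n A).surjective f
  have h1 : rh N (eA n A g) = MvPolynomial.map (Ideal.Quotient.mk N) g := by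
    unfold rh
    simp
  rw [h1, coeff_map]
  exact congrArg (Ideal.Quotient.mk N) (Subtype.ext (coeff_eA g m).symm)

theorem rh_eq_zero {A : Subring K} (N : Ideal A) (f : pA n A) : rh N f = 0 ↔ f ∈ cI N := by
  rw [mem_cI, MvPolynomial.ext_iff]
  refine forall_congr' fun m => ?_
  rw [coeff_rh, coeff_zero, Ideal.Quotient.eq_zero_iff_mem]

theorem rh_surjective {A : Subring K} (N : Ideal A) :
    Function.Surjective (rh N : pA n A →+* MvPolynomial (Fin n) (A ⧸ N)) := by
  unfold rh
  rw [RingHom.coe_comp]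
  exact (MvPolynomial.map_surjective _ Ideal.Quotient.mk_surjective).comp (eA n A).symm.surjective

theorem mem_map_rh {A : Subring K} (N : Ideal A) (I : Ideal (pA n A)) (f : pA n A) :
    rh N f ∈ I.map (rh N) ↔ f ∈ I ⊔ cI N := by
  rw [Ideal.mem_map_iff_of_surjective _ (rh_surjective N)]
  constructor
  · rintro ⟨g, hg, hgf⟩
    have h1 : f - g ∈ cI N := by rw [← rh_eq_zero, map_sub, hgf, sub_self]
    have h2 : f = g + (f - g) := by ring
    rw [h2]
    exact Submodule.add_mem_sup hg h1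
  · intro h
    obtain ⟨g, hg, ν, hν, rfl⟩ := Submodule.mem_sup.1 h
    exact ⟨g, hg, by rw [map_add, (rh_eq_zero N ν).2 hν, add_zero]⟩

end

end Pool.Agent.W467.EM
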