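import Pool.Agent.W467.EM.Red
import Pool.Agent.H580C.CH.T_RD

/-!
The core argument in characteristic zero.
-/

set_option autoImplicit false

namespace Pool.Agent.W467.EM

open MvPolynomial

section

variable {K : Type*} [Field K] {n : ℕ}

/-- the elements of `pA n A` which `f` multiplies into `cA` -/
noncomputable def colA {A : Subring K} (f : MvPolynomial (Fin n) K) (cA : Ideal (pA n A)) :
    Ideal (pA n A) where
  carrier := {G | ∃ b ∈ cA, (b : MvPolynomial (Fin n) K) = f * (G : MvPolynomial (Fin n) K)}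
  add_mem' := by
    rintro x y ⟨a, ha, hax⟩ ⟨b, hb, hby⟩
    refine ⟨a + b, Ideal.add_mem _ ha hb, ?_⟩
    rw [Subring.coe_add, Subring.coe_add, hax, hby, mul_add]
  zero_mem' := ⟨0, Ideal.zero_mem _, by simp⟩
  smul_mem' := by
    rintro c x ⟨a, ha, hax⟩
    refine ⟨c * a, Ideal.mul_mem_left _ _ ha, ?_⟩
    rw [smul_eq_mul, Subring.coe_mul, Subring.coe_mul, hax]
    ring

theorem mem_colA {A : Subring K} {f : MvPolynomial (Fin n) K} {cA : Ideal (pA n A)} {G : pA n A} :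
    G ∈ colA f cA ↔
      ∃ b ∈ cA, (b : MvPolynomial (Fin n) K) = f * (G : MvPolynomial (Fin n) K) := Iff.rfl

theorem mul_mem_of_mem_colA {A : Subring K} {f : pA n A} {cA : Ideal (pA n A)} {G : pA n A}
    (h : G ∈ colA (f : MvPolynomial (Fin n) K) cA) : f * G ∈ cA := by
  obtain ⟨b, hb, hbG⟩ := h
  have : b = f * G := Subtype.ext hbG
  rwa [← this]

theorem EvIn.colA {c d : Ideal (MvPolynomial (Fin n) K)} {dA : ∀ A : Subring K, Ideal (pA n A)}
    (hd : EvIn d dA) (f : MvPolynomial (Fin n) K) (h : ∀ x ∈ c, f * x ∈ d) :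
    EvIn c (fun A => colA f (dA A)) := by
  intro x hx
  refine ((ev_mem x).and (hd _ (h x hx))).mono ?_
  rintro A ⟨hxA, b, hb, hbx⟩
  exact ⟨⟨x, hxA⟩, ⟨b, hb, hbx⟩, rfl⟩

theorem EvIn.inf {c : Ideal (MvPolynomial (Fin n) K)} {cA dA : ∀ A : Subring K, Ideal (pA n A)}
    (hc : EvIn c cA) (hd : EvIn c dA) : EvIn c (fun A => cA A ⊓ dA A) := by
  intro x hx
  refine ((hc x hx).and (hd x hx)).mono ?_
  rintro A ⟨⟨a, ha, hax⟩, b, hb, hbx⟩
  have : a = b := Subtype.ext (hax.trans hbx.symm)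
  subst this
  exact ⟨a, ⟨ha, hb⟩, hax⟩

theorem EvIn.iInf {ι : Type*} [Finite ι] {c : Ideal (MvPolynomial (Fin n) K)}
    {cA : ι → ∀ A : Subring K, Ideal (pA n A)}
    (hc : ∀ i, EvIn c (cA i)) : EvIn c (fun A => ⨅ i, cA i A) := by
  intro x hx
  refine ((ev_mem x).and (Ev.all fun i => hc i x hx)).mono ?_
  rintro A ⟨hxA, hA⟩
  refine ⟨⟨x, hxA⟩, ?_, rfl⟩
  rw [Submodule.mem_iInf]
  intro i
  obtain ⟨b, hb, hbx⟩ := hA i
  have : b = ⟨x, hxA⟩ := Subtype.ext hbx
  rwa [← this]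

theorem spA_range {ι : Type*} {A : Subring K} (a : ι → MvPolynomial (Fin n) K)
    (ha : ∀ i, a i ∈ pA n A) :
    spA (Set.range a) A = Ideal.span (Set.range fun i => (⟨a i, ha i⟩ : pA n A)) := by
  unfold spA
  congr 1
  ext y
  simp only [Set.mem_range]
  constructor
  · rintro ⟨i, hi⟩
    exact ⟨i, Subtype.ext hi⟩
  · rintro ⟨i, hi⟩
    exact ⟨i, by rw [← hi]⟩

theorem cI_le {A : Subring K} (M : Ideal (pA n A)) :
    cI (M.comap (((eA n A : MvPolynomial (Fin n) A ≃+* pA n A) : MvPolynomial (Fin n) A →+* pA n A).comp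
      (C : A →+* MvPolynomial (Fin n) A))) ≤ M := by
  intro f hf
  obtain ⟨g, rfl⟩ := (eA n A).surjective f
  set N := M.comap (((eA n A : MvPolynomial (Fin n) A ≃+* pA n A) :
    MvPolynomial (Fin n) A →+* pA n A).comp (C : A →+* MvPolynomial (Fin n) A)) with hN
  have h1 : g ∈ N.map (C : A →+* MvPolynomial (Fin n) A) := by
    rw [mem_map_C_iff]
    intro m
    rw [mem_cI] at hf
    have h2 := hf m
    have h3 : (⟨coeff m ((eA n A g : pA n A) : MvPolynomial (Fin n) K), coeff_mem _ m⟩ : A) =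
        coeff m g := Subtype.ext (coeff_eA g m)
    rwa [h3] at h2
  have h4 : N.map (C : A →+* MvPolynomial (Fin n) A) ≤
      M.comap ((eA n A : MvPolynomial (Fin n) A ≃+* pA n A) : MvPolynomial (Fin n) A →+* pA n A) := by
    rw [Ideal.map_le_iff_le_comap, Ideal.comap_comap]
  exact h4 h1

end

end Pool.Agent.W467.EM
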