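import Pool.Agent.W467.EM.Zero

/-!
The core argument in characteristic zero.
-/

set_option autoImplicit false

namespace Pool.Agent.W467.EM

open MvPolynomial

theorem FF_mvPolynomial' {k : Type*} [CommRing k] (hk : IsField k) (p : ℕ) [Fact p.Prime]
    [CharP k p] [PerfectRing k p] (n : ℕ) : FF p (MvPolynomial (Fin n) k) := by
  let _ : Field k := hk.toField
  exact FF_mvPolynomial p n

theorem span_range_map {B T : Type*} [CommRing B] [CommRing T] (r : B →+* T) {ι : Type*}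
    (a : ι → B) : Ideal.span (Set.range fun i => r (a i)) = (Ideal.span (Set.range a)).map r := by
  rw [Ideal.map_span, ← Set.range_comp]
  rfl

theorem core_red {B T : Type*} [CommRing B] [CommRing T] [IsDomain T] [IsNoetherianRing T] {p : ℕ}
    [Fact p.Prime] [CharP T p] (hFF : FF p T) (r : B →+* T) (hr : Function.Surjective r)
    (M : Ideal B) [hM : M.IsMaximal] (hker : ∀ x, r x = 0 → x ∈ M) (J k : Ideal B) (F s v : B)
    {m h : ℕ} (hh : 1 ≤ h) {ι : Type*} (sQ : ι → B) (U : ι → Fin (h + 1) → B)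
    (hs : s ∈ Ideal.span (Set.range sQ)) (hJs : ∀ w, r (s * w) ∈ J.map r → r w ∈ J.map r)
    (hkF : ∀ w, r (F * w) ∈ k.map r → w ∈ M) (hv : v ∉ M)
    (hvJ : ∀ G ∈ J, v * G ∈ k ⊔ Ideal.span {F})
    (hJM : J ≤ M) (h1 : ∀ i, ∀ G ∈ J, sQ i * G ∈ (Ideal.span (Set.range (U i))) ^ m)
    (h2 : ∀ i, sQ i * F ∈ (Ideal.span (Set.range (U i))) ^ (m + h))
    (h3 : ∀ i, (Ideal.span (Set.range (U i))) ^ m ≤ J) : False := by
  have hcomapM : ∀ x : B, r x ∈ M.map r → x ∈ M := by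
    intro x hx
    rw [Ideal.mem_map_iff_of_surjective _ hr] at hx
    obtain ⟨y, hy, hyx⟩ := hx
    have h1 : x - y ∈ M := hker _ (by rw [map_sub, hyx, sub_self])
    have h2 : x = (x - y) + y := by ring
    rw [h2]
    exact M.add_mem h1 hy
  have hM' : (M.map r).IsMaximal :=
    Ideal.IsMaximal.map_of_surjective_of_ker_le hr fun x hx => hker x hx
  refine core (p := p) hFF (M.map r) (J.map r) (k.map r) (r F) (r s) (r v)
    (m := m) (h := h) hh (fun i => r (sQ i)) (fun i j => r (U i j)) ?_ ?_ ?_ ?_ ?_ ?_ ?_ ?_ ?_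
  · rw [span_range_map]
    exact Ideal.mem_map_of_mem _ hs
  · intro x hx
    obtain ⟨w, rfl⟩ := hr x
    rw [← map_mul] at hx
    exact hJs w hx
  · intro x hx
    obtain ⟨w, rfl⟩ := hr x
    rw [← map_mul] at hx
    exact Ideal.mem_map_of_mem _ (hkF w hx)
  · exact fun h => hv (hcomapM _ h)
  · intro G hG
    rw [Ideal.mem_map_iff_of_surjective _ hr] at hG
    obtain ⟨g, hg, rfl⟩ := hG
    rw [← map_mul]
    have e2 := Ideal.mem_map_of_mem r (hvJ g hg)
    rw [Ideal.map_sup, Ideal.map_span, Set.image_singleton] at e2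
    exact e2
  · exact Ideal.map_mono hJM
  · intro i G hG
    rw [Ideal.mem_map_iff_of_surjective _ hr] at hG
    obtain ⟨g, hg, rfl⟩ := hG
    rw [← map_mul, span_range_map, ← Ideal.map_pow]
    exact Ideal.mem_map_of_mem r (h1 i g hg)
  · intro i
    rw [← map_mul, span_range_map, ← Ideal.map_pow]
    exact Ideal.mem_map_of_mem r (h2 i)
  · intro i
    rw [span_range_map, ← Ideal.map_pow]
    exact Ideal.map_mono (h3 i)

/-- reduction modulo `p` of the core argument -/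
theorem em_zero {K : Type*} [Field K] {n : ℕ} (P : Ideal (MvPolynomial (Fin n) K))
    [hP : P.IsPrime] (J k : Ideal (MvPolynomial (Fin n) K)) (F s v : MvPolynomial (Fin n) K)
    {m h : ℕ} (hh : 1 ≤ h) {ι : Type*} [Finite ι] (sQ : ι → MvPolynomial (Fin n) K)
    (U : ι → Fin (h + 1) → MvPolynomial (Fin n) K)
    (hs : s ∈ Ideal.span (Set.range sQ)) (hJs : ∀ x, s * x ∈ J → x ∈ J)
    (hkF : ∀ x, F * x ∈ k → x ∈ P) (hv : v ∉ P) (hvJ : ∀ G ∈ J, v * G ∈ k ⊔ Ideal.span {F})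
    (hJP : J ≤ P) (h1 : ∀ i, ∀ G ∈ J, sQ i * G ∈ (Ideal.span (Set.range (U i))) ^ m)
    (h2 : ∀ i, sQ i * F ∈ (Ideal.span (Set.range (U i))) ^ (m + h))
    (h3 : ∀ i, (Ideal.span (Set.range (U i))) ^ m ≤ J) : False := by
  classical
  -- the ideal `J'`
  set J' : ∀ A : Subring K, Ideal (pA n A) := fun A =>
    (J.comap (pA n A).subtype ⊓ ⨅ i, colA (sQ i) ((spA (Set.range (U i)) A) ^ m)) ⊓
      colA v (k.comap (pA n A).subtype ⊔ spA {F} A) with hJ'
  have hJ'ev : EvIn J J' :=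
    (EvIn.inf (EvIn.comap J) (EvIn.iInf fun i =>
      EvIn.colA ((EvIn.span _).pow m) (sQ i) (h1 i))).inf
      (EvIn.colA ((EvIn.comap k).sup (EvIn.span {F})) v hvJ)
  obtain ⟨C0, hC⟩ := (((((((ev_mem F).and (ev_mem s)).and (ev_mem v)).and
    (Ev.all fun i => ev_mem (sQ i))).and (Ev.all fun i => Ev.all fun j => ev_mem (U i j))).and
    (EvIn.span (Set.range sQ) s hs)).and
    (Ev.all fun i => (EvIn.span (Set.range (U i))).pow (m + h) _ (h2 i))).and
    (((ev_GB hJ'ev).and (ev_GB ((EvIn.comap J).sup (EvIn.span {s})))).and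
      (ev_GB ((EvIn.comap k).sup (EvIn.span {F}))))
  set A0 : Subalgebra ℤ K := Algebra.adjoin ℤ (C0 : Set K) with hA0
  set A : Subring K := A0.toSubring with hA
  obtain ⟨⟨⟨⟨⟨⟨⟨hFA, hsA⟩, hvA⟩, hsQA⟩, hUA⟩, hsb⟩, h2b⟩, ⟨⟨hGB1, hGB2⟩, hGB3⟩⟩ :=
    hC A (fun x hx => Algebra.subset_adjoin hx)
  have hft0 : Algebra.FiniteType ℤ A0 :=
    (Subalgebra.fg_iff_finiteType _).1 ⟨C0, rfl⟩
  have hft : Algebra.FiniteType ℤ A :=
    Algebra.FiniteType.of_surjective (R := ℤ) (A := A0) (B := A)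
      ((RingHom.id A : A0 →+* A).toIntAlgHom) (fun x => ⟨x, rfl⟩)
  have hftB : Algebra.FiniteType ℤ (pA n A) := by
    have : Algebra.FiniteType ℤ (MvPolynomial (Fin n) A) :=
      Algebra.FiniteType.trans (R := ℤ) (S := A) hft inferInstance
    let f : MvPolynomial (Fin n) A →ₐ[ℤ] pA n A :=
      ((eA n A : MvPolynomial (Fin n) A ≃+* pA n A) :
        MvPolynomial (Fin n) A →+* pA n A).toIntAlgHom
    exact Algebra.FiniteType.of_surjective f (eA n A).surjective
  have hJZ : IsJacobsonRing ℤ := Pool.Agent.H580C.RD_jac_int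
  have hJB : IsJacobsonRing (pA n A) := isJacobsonRing_of_finiteType (A := ℤ)
  -- the maximal ideal
  set PA := P.comap (pA n A).subtype with hPA
  have hPAp : PA.IsPrime := Ideal.comap_isPrime _ _
  obtain ⟨M, hPM, hM, hvM⟩ : ∃ M : Ideal (pA n A), PA ≤ M ∧ M.IsMaximal ∧ (⟨v, hvA⟩ : pA n A) ∉ M := by
    by_contra hcon
    push Not at hcon
    have e1 : (⟨v, hvA⟩ : pA n A) ∈ PA.jacobson := by
      rw [Ideal.jacobson, Submodule.mem_sInf]
      rintro M ⟨hM1, hM2⟩
      exact hcon M hM1 hM2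
    rw [IsJacobsonRing.out inferInstance hPAp.isRadical] at e1
    exact hv e1
  have hfin : Finite (pA n A ⧸ M) := Pool.Agent.H580C.RD_residue_finite _ M
  set c : A →+* pA n A := ((eA n A : MvPolynomial (Fin n) A ≃+* pA n A) :
    MvPolynomial (Fin n) A →+* pA n A).comp (C : A →+* MvPolynomial (Fin n) A) with hc
  set N : Ideal A := M.comap c with hN
  have hNp : N.IsPrime := Ideal.comap_isPrime _ _
  have hNM : cI N ≤ M := cI_le M
  have hfinN : Finite (A ⧸ N) := by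
    refine Finite.of_injective (Ideal.quotientMap M c le_rfl) ?_
    exact Ideal.quotientMap_injective
  have hNmax : N.IsMaximal := by
    have : IsDomain (A ⧸ N) := Ideal.Quotient.isDomain N
    exact Ideal.Quotient.maximal_of_isField _ (Finite.isField_of_domain _)
  have hNf : IsField (A ⧸ N) := (Ideal.Quotient.maximal_ideal_iff_isField_quotient N).1 hNmax
  obtain ⟨p, hp⟩ := CharP.exists (A ⧸ N)
  have hdom : IsDomain (A ⧸ N) := Ideal.Quotient.isDomain N
  have hpp : p.Prime := CharP.char_is_prime (A ⧸ N) p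
  have hpf : Fact p.Prime := ⟨hpp⟩
  have hperf : PerfectRing (A ⧸ N) p := PerfectRing.ofFiniteOfIsReduced p _
  have hdomT : IsDomain (MvPolynomial (Fin n) (A ⧸ N)) := inferInstance
  have hnoethT : IsNoetherianRing (MvPolynomial (Fin n) (A ⧸ N)) := inferInstance
  have hcT : CharP (MvPolynomial (Fin n) (A ⧸ N)) p := inferInstance
  have hFF : FF p (MvPolynomial (Fin n) (A ⧸ N)) := FF_mvPolynomial' hNf p n
  have hJAJ' : J.comap (pA n A).subtype ≤ J' A := by
    intro x hx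
    have e1 := purity (b := J) (b' := J' A) (fun y hy => hy.1.1) hGB1 ⊤ x hx (by
      rw [mem_cI]; intro m; trivial)
    exact Ideal.mul_le_right e1
  refine core_red hFF (rh N) (rh_surjective N) M (fun x hx => hNM ((rh_eq_zero N x).1 hx))
    (J.comap (pA n A).subtype) (k.comap (pA n A).subtype) ⟨F, hFA⟩ ⟨s, hsA⟩ ⟨v, hvA⟩
    (m := m) (h := h) hh (fun i => ⟨sQ i, hsQA i⟩) (fun i j => ⟨U i j, hUA i j⟩)
    ?_ ?_ ?_ hvM ?_ ?_ ?_ ?_ ?_
  · obtain ⟨b, hb, hbs⟩ := hsb
    have : b = ⟨s, hsA⟩ := Subtype.ext hbs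
    rw [this, spA_range _ hsQA] at hb
    exact hb
  · intro w hx
    rw [mem_map_rh] at hx ⊢
    exact colon_red (a := J) (c := J) ⟨s, hsA⟩ hJs hGB2 N w hx
  · intro w hx
    rw [mem_map_rh] at hx
    exact (sup_le hPM hNM) (colon_red (a := k) (c := P) ⟨F, hFA⟩ hkF hGB3 N w hx)
  · intro g hg
    have e1 := mul_mem_of_mem_colA (f := ⟨v, hvA⟩) (hJAJ' hg).2
    have e3 : spA {F} A = Ideal.span {(⟨F, hFA⟩ : pA n A)} := spA_singleton ⟨F, hFA⟩
    rw [e3] at e1
    exact e1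
  · exact fun x hx => hPM (hJP hx)
  · intro i g hg
    have e0 := (Submodule.mem_iInf _).1 (hJAJ' hg).1.2
    have e1 := mul_mem_of_mem_colA (f := ⟨sQ i, hsQA i⟩) (e0 i)
    rw [spA_range _ (hUA i)] at e1
    exact e1
  · intro i
    obtain ⟨b, hb, hbs⟩ := h2b i
    have : b = ⟨sQ i, hsQA i⟩ * ⟨F, hFA⟩ := Subtype.ext hbs
    simp only [] at hb
    rw [this, spA_range _ (hUA i)] at hb
    exact hb
  · intro i x hx
    rw [← spA_range _ (hUA i)] at hx
    exact h3 i (coe_mem_pow (c := Ideal.span (Set.range (U i))) (fun y hy => coe_mem_span hy) m hx)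

end Pool.Agent.W467.EM
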